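import Pool.Prelude.Def_H_3587d628

/-!
Fair Feedback Vertex Set and its polynomial kernels.
-/

namespace Pool.Agent.MP_a87d5d_lc

open N68a2faeb

/-- `G` has a feedback vertex set of size at most `k` that is fair with fairness factor `d`. -/
def HasFairFVS {V : Type} (G : SimpleGraph V) (k d : ℕ) : Prop :=
  ∃ S : Set V, S.ncard ≤ k ∧ (∀ v, (G.neighborSet v ∩ S).ncard ≤ d) ∧ (G.induce Sᶜ).IsAcyclic

/-- An input `(G, k, d)`, the graph being given by its adjacency matrix. -/
abbrev Instance : Type := List (List Bool) × ℕ × ℕ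

/-- The entry `(u, v)` of a matrix. -/
def entry (M : List (List Bool)) (u v : ℕ) : Bool := (M.getD u []).getD v false

/-- The matrix is square and symmetric with zero diagonal, and `d` is positive. -/
def Valid (I : Instance) : Prop :=
  (∀ r ∈ I.1, r.length = I.1.length) ∧ (∀ u v, entry I.1 u v = entry I.1 v u) ∧
    (∀ u, entry I.1 u u = false) ∧ 1 ≤ I.2.2

/-- The graph with adjacency matrix `M`. -/
def graph (M : List (List Bool)) : SimpleGraph (Fin M.length) :=
  SimpleGraph.fromRel (fun u v => entry M u.val v.val = true)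

/-- Yes-instances of FFVS. -/
def Yes (I : Instance) : Prop := HasFairFVS (graph I.1) I.2.1 I.2.2

/-- FFVS parameterized by `k` has a polynomial kernel. -/
def HasPolyKernel : Prop :=
  ∃ (p : Polynomial ℕ) (κ : Instance → Instance), IsPolyTime κ ∧
    ∀ I, Valid I → Valid (κ I) ∧ (Yes (κ I) ↔ Yes I) ∧
      (N487b59b3.bitEncode (κ I)).length ≤ p.eval I.2.1

end Pool.Agent.MP_a87d5d_lc
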