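import Pool.Agent.MP_a87d5d_lc.Defs
import Pool.Agent.Lib.Cx.All

/-!
The OR-composition of 3-SAT into Fair Feedback Vertex Set: the combinatorial part.
-/

namespace Pool.Agent.MP_a87d5d_lc

open Pool.Agent.Lib.Cx Finset

theorem HasFairFVS.of_iso {V W : Type} {G : SimpleGraph V} {H : SimpleGraph W} (e : G ≃g H)
    {k d : ℕ} (h : HasFairFVS H k d) : HasFairFVS G k d := by
  obtain ⟨S, h1, h2, h3⟩ := h
  have hc : ∀ T : Set W, (e ⁻¹' T).ncard = T.ncard := fun T =>
    Set.ncard_preimage_of_injective_subset_range e.injective (by simp)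
  refine ⟨e ⁻¹' S, by rwa [hc], fun v => ?_, ?_⟩
  · have : G.neighborSet v ∩ e ⁻¹' S = e ⁻¹' (H.neighborSet (e v) ∩ S) := by
      ext w
      simp [e.map_adj_iff]
    rw [this, hc]
    exact h2 _
  · refine h3.comap ⟨fun x => ⟨e x.1, x.2⟩, fun {a b} hab => ?_⟩ ?_
    · exact e.map_adj_iff.2 hab
    · intro a b hab
      exact Subtype.ext (e.injective (congrArg Subtype.val hab))

theorem acyclic_of_rank {V : Type} (G : SimpleGraph V) (f : V → ℕ)
    (h1 : ∀ u v, G.Adj u v → f u ≠ f v)
    (h2 : ∀ u v w, G.Adj u v → G.Adj u w → f v < f u → f w < f u → v = w) : G.IsAcyclic := by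
  classical
  intro v p hp
  obtain ⟨u, hu, hmax⟩ := p.support.toFinset.exists_max_image f ⟨v, by simp⟩
  rw [List.mem_toFinset] at hu
  have hq := hp.rotate hu
  set q := p.rotate u hu with hq'
  have hn : ¬ q.Nil := hq.not_nil
  have hs : ∀ w ∈ q.support, f w ≤ f u := by
    intro w hw
    apply hmax
    rw [List.mem_toFinset]
    exact (SimpleGraph.Walk.mem_support_rotate_iff _ _ _).1 hw
  have a1 : G.Adj u q.snd := q.adj_snd hn
  have a2 : G.Adj u q.penultimate := (q.adj_penultimate hn).symm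
  exact hq.snd_ne_penultimate (h2 u _ _ a1 a2
    (lt_of_le_of_ne (hs _ (q.getVert_mem_support _)) (h1 _ _ a1).symm)
    (lt_of_le_of_ne (hs _ (q.getVert_mem_support _)) (h1 _ _ a2).symm))

/-- The literals of a clause. -/
def lits (c : Clause3 ℕ) : List (ℕ × Bool) := [c.1, c.2.1, c.2.2]

/-- The number of distinct literals of a clause. -/
def cap (c : Clause3 ℕ) : ℕ := (lits c).dedup.length

/-- A default clause. -/
def dflt : Clause3 ℕ := ((0, false), (0, false), (0, false))

/-- The edges leaving the centre of a clause row towards other rows. -/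
def cross (V : ℕ) (Z : List (Clause3 ℕ)) (Φ : List (List (Clause3 ℕ))) (c : Clause3 ℕ)
    (a' b' : ℕ) : Prop :=
  (a' = 0 ∧ c ∈ Φ.getD b' []) ∨ (1 ≤ a' ∧ a' ≤ V ∧ (a' - 1, decide (b' ≠ 0)) ∈ lits c) ∨
    (V + Z.length < a' ∧ b' = 0 ∧ a' - (V + Z.length + 1) + cap c < Z.length + 4)

/-- The edge relation on pairs (row, column). -/
def rel (V : ℕ) (Z : List (Clause3 ℕ)) (Φ : List (List (Clause3 ℕ))) (a b a' b' : ℕ) : Prop :=
  (a = a' ∧ b' = (b + 1) % Φ.length) ∨ (a = a' ∧ V < a ∧ b = 0) ∨
    (V < a ∧ a ≤ V + Z.length ∧ b = 0 ∧ cross V Z Φ (Z.getD (a - V - 1) dflt) a' b')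

/-- The number of rows. -/
def rows (V : ℕ) (Z : List (Clause3 ℕ)) : ℕ := 1 + V + Z.length + (Z.length + 4)

/-- The composed graph. -/
def H (V : ℕ) (Z : List (Clause3 ℕ)) (Φ : List (List (Clause3 ℕ))) :
    SimpleGraph (Fin (rows V Z) × Fin Φ.length) :=
  SimpleGraph.fromRel (fun x y => rel V Z Φ x.1.val x.2.val y.1.val y.2.val)

theorem cap_le (c : Clause3 ℕ) : cap c ≤ 3 :=
  (List.dedup_sublist _).length_le

open Classical in
/-- The number of variables whose chosen option falsifies a literal of the clause. -/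
noncomputable def used (V : ℕ) (s : ℕ → Bool) (c : Clause3 ℕ) : ℕ :=
  ((range V).filter (fun v => (v, !s v) ∈ lits c)).card

theorem used_le_card (V : ℕ) (s : ℕ → Bool) (c : Clause3 ℕ) :
    used V s c ≤ ((lits c).toFinset.filter (fun l => s l.1 ≠ l.2)).card := by
  classical
  unfold used
  refine card_le_card_of_injOn (fun v => (v, !s v)) (fun v hv => ?_)
    (fun v _ w _ h => congrArg Prod.fst h)
  simp only [coe_filter, mem_range, Set.mem_ofPred_eq, List.mem_toFinset] at hv ⊢
  exact ⟨hv.2, by simp⟩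

theorem used_le (V : ℕ) (s : ℕ → Bool) (c : Clause3 ℕ) : used V s c ≤ cap c := by
  refine (used_le_card V s c).trans ((card_filter_le _ _).trans ?_)
  rw [List.card_toFinset, cap]

theorem used_lt (V : ℕ) (s : ℕ → Bool) (c : Clause3 ℕ) (h : c.Holds s) : used V s c < cap c := by
  refine (used_le_card V s c).trans_lt ?_
  rw [cap, ← List.card_toFinset]
  apply card_lt_card
  rw [filter_ssubset]
  rcases h with h | h | h
  · exact ⟨c.1, by simp [lits], by simp [h]⟩
  · exact ⟨c.2.1, by simp [lits], by simp [h]⟩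
  · exact ⟨c.2.2, by simp [lits], by simp [h]⟩

theorem le_used (V : ℕ) (s : ℕ → Bool) (c : Clause3 ℕ) (h : ¬ c.Holds s)
    (hV : ∀ l ∈ lits c, l.1 < V) : cap c ≤ used V s c := by
  classical
  have hf : ∀ l ∈ lits c, l = (l.1, !s l.1) := by
    intro l hl
    have : s l.1 ≠ l.2 := by
      simp only [Clause3.Holds, not_or] at h
      simp only [lits, List.mem_cons, List.not_mem_nil, or_false] at hl
      rcases hl with rfl | rfl | rfl
      exacts [h.1, h.2.1, h.2.2]
    refine Prod.ext rfl ?_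
    revert this
    cases s l.1 <;> cases l.2 <;> simp
  rw [cap, ← List.card_toFinset, used]
  refine card_le_card_of_injOn Prod.fst (fun l hl => ?_) (fun l hl m hm h => ?_)
  · simp only [List.coe_toFinset, Set.mem_ofPred_eq] at hl
    simp only [coe_filter, mem_range, Set.mem_ofPred_eq]
    exact ⟨hV l hl, by rw [← hf l hl]; exact hl⟩
  · simp only [List.coe_toFinset, Set.mem_ofPred_eq] at hl hm
    rw [hf l hl, hf m hm, h]

variable {V : ℕ} {Z : List (Clause3 ℕ)} {Φ : List (List (Clause3 ℕ))}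

/-- The transversal given by one column in each row. -/
def trans (V : ℕ) (Z : List (Clause3 ℕ)) (Φ : List (List (Clause3 ℕ))) (sel : ℕ → ℕ) :
    Set (Fin (rows V Z) × Fin Φ.length) := {x | x.2.val = sel x.1.val}

open Classical in
theorem count_trans (sel : ℕ → ℕ) (hsel : ∀ a, sel a < Φ.length)
    (P : ℕ → ℕ → Prop) :
    ({x : Fin (rows V Z) × Fin Φ.length | P x.1.val x.2.val} ∩ trans V Z Φ sel).ncard =
      ((range (rows V Z)).filter (fun a => P a (sel a))).card := by
  rw [← Set.ncard_coe_finset]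
  refine Set.ncard_congr (fun x _ => x.1.val) (fun x hx => ?_) (fun x y hx hy h => ?_)
    (fun a ha => ?_)
  · simp only [coe_filter, mem_range, Set.mem_ofPred_eq]
    exact ⟨x.1.isLt, by rw [← hx.2]; exact hx.1⟩
  · exact Prod.ext (Fin.ext h) (Fin.ext (by rw [hx.2, hy.2, h]))
  · simp only [coe_filter, mem_range, Set.mem_ofPred_eq] at ha
    exact ⟨(⟨a, ha.1⟩, ⟨sel a, hsel a⟩), ⟨ha.2, rfl⟩, rfl⟩

open Classical in
theorem count_cross (sel : ℕ → ℕ) (h0 : ∀ a, V < a → a < rows V Z → sel a = 0) (c : Clause3 ℕ) :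
    ((range (rows V Z)).filter (fun a => cross V Z Φ c a (sel a))).card =
      (if c ∈ Φ.getD (sel 0) [] then 1 else 0) + used V (fun v => decide (sel (1 + v) = 0)) c +
        (Z.length + 4 - cap c) := by
  have hc := cap_le c
  rw [card_filter, rows, sum_range_add, sum_range_add, sum_range_add, sum_range_one]
  have e1 : ∑ v ∈ range V, (if cross V Z Φ c (1 + v) (sel (1 + v)) then 1 else 0) =
      used V (fun v => decide (sel (1 + v) = 0)) c := by
    rw [used, card_filter]
    refine sum_congr rfl fun v hv => ?_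
    rw [mem_range] at hv
    congr 1
    simp only [cross, eq_iff_iff]
    have : 1 + v - 1 = v := by omega
    rw [this]
    constructor
    · rintro (h | h | h)
      · omega
      · simpa using h.2.2
      · omega
    · intro h
      exact Or.inr (Or.inl ⟨by omega, by omega, by simpa using h⟩)
  have e2 : ∑ v ∈ range Z.length,
      (if cross V Z Φ c (1 + V + v) (sel (1 + V + v)) then 1 else 0) = 0 := by
    refine sum_eq_zero fun v hv => if_neg ?_
    rw [mem_range] at hv
    rintro (h | h | h) <;> omega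
  have e3 : ∑ v ∈ range (Z.length + 4),
      (if cross V Z Φ c (1 + V + Z.length + v) (sel (1 + V + Z.length + v)) then 1 else 0) =
      Z.length + 4 - cap c := by
    rw [← card_filter]
    have : filter (fun v => cross V Z Φ c (1 + V + Z.length + v) (sel (1 + V + Z.length + v)))
        (range (Z.length + 4)) = range (Z.length + 4 - cap c) := by
      ext v
      simp only [mem_filter, mem_range]
      constructor
      · rintro ⟨h1, h | h | h⟩ <;> omega
      · intro h
        exact ⟨by omega, Or.inr (Or.inr ⟨by omega, h0 _ (by omega) (by unfold rows; omega),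
          by omega⟩)⟩
    rw [this, card_range]
  rw [e1, e2, e3, add_zero]
  congr 3
  simp only [cross, eq_iff_iff]
  constructor
  · rintro (h | h | h)
    · exact h.2
    · omega
    · omega
  · exact fun h => Or.inl ⟨trivial, h⟩

theorem nbhd_centre (sel : ℕ → ℕ) (h0 : ∀ a, V < a → a < rows V Z → sel a = 0)
    (x : Fin (rows V Z) × Fin Φ.length) (h1 : V < x.1.val) (h2 : x.1.val ≤ V + Z.length)
    (h3 : x.2.val = 0) :
    (H V Z Φ).neighborSet x ∩ trans V Z Φ sel =
      {y | cross V Z Φ (Z.getD (x.1.val - V - 1) dflt) y.1.val y.2.val} ∩ trans V Z Φ sel := by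
  ext y
  simp only [Set.mem_inter_iff, SimpleGraph.mem_neighborSet, H, SimpleGraph.fromRel_adj,
    Set.mem_ofPred_eq, trans, and_congr_left_iff]
  intro hy
  have hrow : x.1.val = y.1.val → x = y := fun h =>
    Prod.ext (Fin.ext h) (Fin.ext (by rw [h3, hy, ← h, h0 _ h1 x.1.isLt]))
  constructor
  · rintro ⟨hne, (h | h | h) | (h | h | h)⟩
    · exact absurd (hrow h.1) hne
    · exact absurd (hrow h.1) hne
    · exact h.2.2.2
    · exact absurd (hrow h.1.symm) hne
    · exact absurd (hrow h.1.symm) hne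
    · rcases h.2.2.2 with h | h | h <;> omega
  · intro h
    refine ⟨fun e => ?_, Or.inl (Or.inr (Or.inr ⟨h1, h2, h3, h⟩))⟩
    subst e
    rcases h with h | h | h <;> omega

theorem rank_succ {T b s : ℕ} (hb : b < T) (hs : s < T) (h : (b + 1) % T ≠ s) :
    ((b + 1) % T + T - s) % T = (b + T - s) % T + 1 := by
  rcases Nat.lt_or_ge (b + 1) T with h1 | h1
  · rw [Nat.mod_eq_of_lt h1] at h ⊢
    rcases Nat.lt_or_ge b s with h2 | h2
    · rw [Nat.mod_eq_of_lt (by omega), Nat.mod_eq_of_lt (by omega)]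
      omega
    · rw [show b + 1 + T - s = (b + 1 - s) + T by omega, show b + T - s = (b - s) + T by omega,
        Nat.add_mod_right, Nat.add_mod_right, Nat.mod_eq_of_lt (by omega),
        Nat.mod_eq_of_lt (by omega)]
      omega
  · have : b + 1 = T := by omega
    rw [this, Nat.mod_self] at h ⊢
    rw [show b + T - s = (b - s) + T by omega, Nat.add_mod_right, Nat.mod_eq_of_lt (by omega),
      Nat.mod_eq_of_lt (by omega)]
    omega

theorem succ_mod_inj {T b b' : ℕ} (hb : b < T) (hb' : b' < T) (h : (b + 1) % T = (b' + 1) % T) :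
    b = b' := by
  have h1 : b ≡ b' [MOD T] := Nat.ModEq.add_right_cancel' 1 h
  exact Nat.ModEq.eq_of_lt_of_lt h1 hb hb'

theorem acyclic_compl_trans (sel : ℕ → ℕ) (hsel : ∀ a, sel a < Φ.length)
    (h0 : ∀ a, V < a → a < rows V Z → sel a = 0) :
    ((H V Z Φ).induce (trans V Z Φ sel)ᶜ).IsAcyclic := by
  have key : ∀ x y : ↥(trans V Z Φ sel)ᶜ, rel V Z Φ x.1.1.val x.1.2.val y.1.1.val y.1.2.val →
      x.1.1.val = y.1.1.val ∧ y.1.2.val = (x.1.2.val + 1) % Φ.length ∧
      (y.1.2.val + Φ.length - sel y.1.1.val) % Φ.length =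
        (x.1.2.val + Φ.length - sel x.1.1.val) % Φ.length + 1 := by
    rintro x y (h | h | h)
    · refine ⟨h.1, h.2, ?_⟩
      have hy : y.1.2.val ≠ sel y.1.1.val := y.2
      rw [h.2, ← h.1] at hy ⊢
      exact rank_succ x.1.2.isLt (hsel _) hy
    · exact absurd (h.2.2.trans (h0 _ h.2.1 x.1.1.isLt).symm) x.2
    · exact absurd (h.2.2.1.trans (h0 _ h.1 x.1.1.isLt).symm) x.2
  refine acyclic_of_rank _ (fun x => (x.1.2.val + Φ.length - sel x.1.1.val) % Φ.length) ?_ ?_
  · intro u v huv
    simp only [SimpleGraph.comap_adj, Function.Embedding.subtype_apply, H,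
      SimpleGraph.fromRel_adj] at huv
    rcases huv.2 with h | h
    · have := (key _ _ h).2.2
      omega
    · have := (key _ _ h).2.2
      omega
  · intro u v w huv huw h1 h2
    simp only [SimpleGraph.comap_adj, Function.Embedding.subtype_apply, H,
      SimpleGraph.fromRel_adj] at huv huw
    rcases huv.2 with h | h
    · have := (key _ _ h).2.2
      omega
    rcases huw.2 with h' | h'
    · have := (key _ _ h').2.2
      omega
    have a := key _ _ h
    have b := key _ _ h'
    exact Subtype.ext (Prod.ext (Fin.ext (a.1.trans b.1.symm))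
      (Fin.ext (succ_mod_inj v.1.2.isLt w.1.2.isLt (a.2.1.symm.trans b.2.1))))

theorem sat_imp (hT : 5 ≤ Φ.length) (h : ∃ φ ∈ Φ, Sat3 φ) :
    HasFairFVS (H V Z Φ) (rows V Z) (Z.length + 4) := by
  classical
  obtain ⟨φ, hφ, s, hs⟩ := h
  obtain ⟨j, hj, rfl⟩ := List.mem_iff_getElem.1 hφ
  set sel : ℕ → ℕ := fun a => if a = 0 then j else if a ≤ V ∧ s (a - 1) = false then 1 else 0
    with hsel
  have s1 : ∀ a, sel a < Φ.length := by
    intro a
    simp only [hsel]
    split_ifs <;> omega
  have s2 : ∀ a, V < a → a < rows V Z → sel a = 0 := by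
    intro a ha _
    simp only [hsel]
    rw [if_neg (by omega), if_neg (by omega)]
  have s3 : ∀ c, used V (fun v => decide (sel (1 + v) = 0)) c = used V s c := by
    intro c
    unfold used
    congr 1
    refine filter_congr fun v hv => ?_
    rw [mem_range] at hv
    have : decide (sel (1 + v) = 0) = s v := by
      have e : sel (1 + v) = if s v = false then 1 else 0 := by
        simp only [hsel]
        rw [if_neg (by omega), show 1 + v - 1 = v by omega]
        simp only [show 1 + v ≤ V by omega, true_and]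
      simp only [e]
      cases s v <;> simp
    simp only [this]
  refine ⟨trans V Z Φ sel, ?_, fun x => ?_, acyclic_compl_trans sel s1 s2⟩
  · have := count_trans (V := V) (Z := Z) sel s1 (fun _ _ => True)
    simp only [Set.ofPred_true, Set.univ_inter, filter_true, card_range] at this
    exact this.le
  · by_cases hx : V < x.1.val ∧ x.1.val ≤ V + Z.length ∧ x.2.val = 0
    · rw [nbhd_centre sel s2 x hx.1 hx.2.1 hx.2.2, count_trans sel s1, count_cross sel s2, s3]
      have c1 := cap_le (Z.getD (x.1.val - V - 1) dflt)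
      have c2 := used_le V s (Z.getD (x.1.val - V - 1) dflt)
      split_ifs with hc
      · have : sel 0 = j := by simp [hsel]
        rw [this, List.getD_eq_getElem _ _ hj] at hc
        have := used_lt V s _ (hs _ hc)
        omega
      · omega
    · have sub : (H V Z Φ).neighborSet x ∩ trans V Z Φ sel ⊆
          {y | y.1.val ∈ insert x.1.val (Ioc V (V + Z.length))} ∩ trans V Z Φ sel := by
        rintro y ⟨hy, hy'⟩
        refine ⟨?_, hy'⟩
        simp only [SimpleGraph.mem_neighborSet, H, SimpleGraph.fromRel_adj] at hy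
        simp only [mem_insert, mem_Ioc, Set.mem_ofPred_eq]
        rcases hy.2 with (h | h | h) | (h | h | h)
        · exact Or.inl h.1.symm
        · exact Or.inl h.1.symm
        · exact absurd ⟨h.1, h.2.1, h.2.2.1⟩ hx
        · exact Or.inl h.1
        · exact Or.inl h.1
        · exact Or.inr ⟨h.1, h.2.1⟩
      refine (Set.ncard_le_ncard sub (Set.toFinite _)).trans ?_
      rw [count_trans sel s1 (fun a _ => a ∈ insert x.1.val (Ioc V (V + Z.length)))]
      refine (card_le_card (t := insert x.1.val (Ioc V (V + Z.length)))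
        (fun a ha => by simp only [mem_filter] at ha; exact ha.2)).trans
        ((card_insert_le _ _).trans ?_)
      rw [Nat.card_Ioc]
      omega

theorem row_hit (hT : 5 ≤ Φ.length) (S : Set (Fin (rows V Z) × Fin Φ.length))
    (hS : ((H V Z Φ).induce Sᶜ).IsAcyclic) (a : Fin (rows V Z)) : ∃ b, (a, b) ∈ S := by
  by_contra hn
  push Not at hn
  refine SimpleGraph.isAcyclic_iff_free_cycleGraph.1 hS Φ.length (by omega)
    ⟨⟨⟨fun b => ⟨(a, b), hn b⟩, fun {u v} huv => ?_⟩, fun u v h => ?_⟩⟩
  · have key : ∀ u v : Fin Φ.length, (u - v).val = 1 → u.val = (v.val + 1) % Φ.length := by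
      intro u v h
      rw [Fin.sub_def] at h
      simp only at h
      have hu := u.isLt
      have hv := v.isLt
      rcases Nat.lt_or_ge (Φ.length - v.val + u.val) Φ.length with h1 | h1
      · rw [Nat.mod_eq_of_lt h1] at h
        rw [show v.val + 1 = Φ.length by omega, Nat.mod_self]
        omega
      · rw [Nat.mod_eq_sub_mod h1, Nat.mod_eq_of_lt (by omega)] at h
        rw [Nat.mod_eq_of_lt (by omega)]
        omega
    simp only [SimpleGraph.comap_adj, Function.Embedding.subtype_apply, H,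
      SimpleGraph.fromRel_adj]
    refine ⟨fun h => huv.ne (congrArg Prod.snd h), ?_⟩
    rcases SimpleGraph.cycleGraph_adj'.1 huv with h | h
    · exact Or.inr (Or.inl ⟨rfl, key _ _ h⟩)
    · exact Or.inl (Or.inl ⟨rfl, key _ _ h⟩)
  · exact congrArg (fun x => x.1.2) h

theorem fan_hit (S : Set (Fin (rows V Z) × Fin Φ.length))
    (hS : ((H V Z Φ).induce Sᶜ).IsAcyclic) (a : Fin (rows V Z)) (ha : V < a.val)
    (b : ℕ) (hb0 : 0 < b) (hb : b + 1 < Φ.length) :
    (a, ⟨0, by omega⟩) ∈ S ∨ (a, ⟨b, by omega⟩) ∈ S ∨ (a, ⟨b + 1, hb⟩) ∈ S := by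
  classical
  by_contra hn
  push Not at hn
  refine hS.cliqueFree le_rfl {⟨_, hn.1⟩, ⟨_, hn.2.1⟩, ⟨_, hn.2.2⟩} ?_
  rw [SimpleGraph.is3Clique_triple_iff]
  simp only [SimpleGraph.comap_adj, Function.Embedding.subtype_apply, H,
    SimpleGraph.fromRel_adj, ne_eq, Prod.mk.injEq, true_and, Fin.mk.injEq]
  exact ⟨⟨by omega, Or.inl (Or.inr (Or.inl ⟨rfl, ha, rfl⟩))⟩,
    ⟨by omega, Or.inl (Or.inr (Or.inl ⟨rfl, ha, rfl⟩))⟩,
    ⟨by omega, Or.inl (Or.inl ⟨rfl, (Nat.mod_eq_of_lt hb).symm⟩)⟩⟩

theorem imp_sat (hT : 5 ≤ Φ.length) (hZ : ∀ φ ∈ Φ, ∀ c ∈ φ, c ∈ Z ∧ ∀ l ∈ lits c, l.1 < V)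
    (h : HasFairFVS (H V Z Φ) (rows V Z) (Z.length + 4)) : ∃ φ ∈ Φ, Sat3 φ := by
  classical
  obtain ⟨S, h1, h2, h3⟩ := h
  choose g hg using row_hit hT S h3
  set sel : ℕ → ℕ := fun a => if h : a < rows V Z then (g ⟨a, h⟩).val else 0 with hsel
  have s1 : ∀ a, sel a < Φ.length := by
    intro a
    simp only [hsel]
    split_ifs with h
    · exact (g _).isLt
    · omega
  have hS : trans V Z Φ sel = S := by
    apply Set.eq_of_subset_of_ncard_le _ _ (Set.toFinite _)
    · intro x hx
      have : x.2 = g x.1 := Fin.ext (by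
        have hx' : x.2.val = sel x.1.val := hx
        rw [hx']
        simp only [hsel]
        rw [dif_pos x.1.isLt])
      have h4 := hg x.1
      rwa [← this] at h4
    · have := count_trans (V := V) (Z := Z) sel s1 (fun _ _ => True)
      simp only [Set.ofPred_true, Set.univ_inter, filter_true, card_range] at this
      rw [this]
      exact h1
  subst hS
  have s2 : ∀ a, V < a → a < rows V Z → sel a = 0 := by
    intro a ha ha'
    have e1 := fan_hit _ h3 ⟨a, ha'⟩ ha 1 (by omega) (by omega)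
    have e2 := fan_hit _ h3 ⟨a, ha'⟩ ha 3 (by omega) (by omega)
    simp only [trans, Set.mem_ofPred_eq] at e1 e2
    omega
  refine ⟨Φ[sel 0]'(s1 0), List.getElem_mem _, fun v => decide (sel (1 + v) = 0), fun c hc => ?_⟩
  by_contra hn
  obtain ⟨hcZ, hcV⟩ := hZ _ (List.getElem_mem _) c hc
  obtain ⟨i, hi, rfl⟩ := List.mem_iff_getElem.1 hcZ
  have h4 := h2 (⟨V + 1 + i, by unfold rows; omega⟩, ⟨0, by omega⟩)
  rw [nbhd_centre sel s2 _ (by simp only; omega) (by simp only; omega) rfl, count_trans sel s1,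
    count_cross sel s2] at h4
  simp only [show V + 1 + i - V - 1 = i by omega, List.getD_eq_getElem _ _ hi,
    List.getD_eq_getElem _ _ (s1 0), hc, if_true] at h4
  have c1 := cap_le Z[i]
  have c2 := le_used V _ _ hn hcV
  omega

end Pool.Agent.MP_a87d5d_lc
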