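import Pool.Agent.MP_a87d5d_lc.Gadget
import Pool.Agent.Lib.Kernel.FS

/-!
The OR-composition as a polynomial-time map, and the kernel lower bound.
-/

namespace Pool.Agent.MP_a87d5d_lc

open Pool.Agent.Lib.Cx Pool.Agent.Lib.Kernel N68a2faeb

/-- All literals on the variables below `V`. -/
def allLits (V : ℕ) : List (ℕ × Bool) := (List.range V).product [true, false]

/-- All clauses on the variables below `V`. -/
def allClauses (V : ℕ) : List (Clause3 ℕ) :=
  (allLits V).product ((allLits V).product (allLits V))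

theorem mem_allLits {V : ℕ} {l : ℕ × Bool} (h : l.1 < V) : l ∈ allLits V := by
  obtain ⟨v, b⟩ := l
  unfold allLits
  rw [List.pair_mem_product]
  exact ⟨List.mem_range.2 h, by cases b <;> simp⟩

theorem mem_allClauses {V : ℕ} {c : Clause3 ℕ} (h : ∀ l ∈ lits c, l.1 < V) :
    c ∈ allClauses V := by
  obtain ⟨a, b, d⟩ := c
  unfold allClauses
  rw [List.pair_mem_product, List.pair_mem_product]
  exact ⟨mem_allLits (h _ (by simp [lits])), mem_allLits (h _ (by simp [lits])),
    mem_allLits (h _ (by simp [lits]))⟩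

theorem length_allClauses (V : ℕ) : (allClauses V).length = 8 * V ^ 3 := by
  have h1 : (allLits V).length = V * 2 := by
    have := List.length_product (List.range V) [true, false]
    rw [List.length_range] at this
    exact this
  have h2 := List.length_product (allLits V) (allLits V)
  have h3 := List.length_product (allLits V) ((allLits V).product (allLits V))
  have h4 : ((allLits V).product (allLits V)).length = (allLits V).length * (allLits V).length := h2
  have h5 : (allClauses V).length =
      (allLits V).length * ((allLits V).product (allLits V)).length := h3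
  rw [h5, h4, h1]
  ring

open Classical in
/-- The adjacency test on vertex numbers. -/
noncomputable def adjB (V : ℕ) (Z : List (Clause3 ℕ)) (Φ : List (List (Clause3 ℕ))) (u v : ℕ) :
    Bool :=
  decide (u ≠ v ∧ (rel V Z Φ (u / Φ.length) (u % Φ.length) (v / Φ.length) (v % Φ.length) ∨
    rel V Z Φ (v / Φ.length) (v % Φ.length) (u / Φ.length) (u % Φ.length)))

/-- The adjacency matrix of the composed graph. -/
noncomputable def matrix (V : ℕ) (Z : List (Clause3 ℕ)) (Φ : List (List (Clause3 ℕ))) :
    List (List Bool) :=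
  (List.range (rows V Z * Φ.length)).map (fun u =>
    (List.range (rows V Z * Φ.length)).map (fun v => adjB V Z Φ u v))

variable {V : ℕ} {Z : List (Clause3 ℕ)} {Φ : List (List (Clause3 ℕ))}

theorem length_matrix : (matrix V Z Φ).length = rows V Z * Φ.length := by simp [matrix]

theorem entry_matrix (u v : ℕ) : entry (matrix V Z Φ) u v =
    (decide (u < rows V Z * Φ.length ∧ v < rows V Z * Φ.length) && adjB V Z Φ u v) := by
  unfold entry matrix
  by_cases hu : u < rows V Z * Φ.length <;> by_cases hv : v < rows V Z * Φ.length <;>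
    simp [hu, hv]

theorem valid_matrix (k : ℕ) : Valid (matrix V Z Φ, k, Z.length + 4) := by
  refine ⟨fun r hr => ?_, fun u v => ?_, fun u => ?_, by simp⟩
  · obtain ⟨u, -, rfl⟩ := List.mem_map.1 hr
    simp [length_matrix]
  · rw [Bool.eq_iff_iff]
    simp only [entry_matrix, adjB, Bool.and_eq_true, decide_eq_true_eq]
    tauto
  · simp [entry_matrix, adjB]

/-- The matrix describes the composed graph. -/
noncomputable def iso : graph (matrix V Z Φ) ≃g H V Z Φ where
  toEquiv := (finCongr length_matrix).trans finProdFinEquiv.symm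
  map_rel_iff' := by
    intro u v
    have hu : u.val < rows V Z * Φ.length := length_matrix ▸ u.isLt
    have hv : v.val < rows V Z * Φ.length := length_matrix ▸ v.isLt
    simp only [H, graph, SimpleGraph.fromRel_adj, ne_eq,
      entry_matrix, hu, hv, and_self, decide_true, Bool.true_and, adjB, decide_eq_true_eq,
      Equiv.trans_apply, finProdFinEquiv_symm_apply, Fin.coe_divNat, Fin.coe_modNat,
      finCongr_apply, Fin.val_cast, Fin.val_inj]
    have e : ¬ v = u ↔ ¬ u = v := by rw [eq_comm]
    have e2 : ((Fin.cast length_matrix u).divNat, (Fin.cast length_matrix u).modNat) =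
        ((Fin.cast length_matrix v).divNat, (Fin.cast length_matrix v).modNat) ↔ u = v :=
      ((finCongr length_matrix).trans finProdFinEquiv.symm).injective.eq_iff
    rw [e, e2]
    tauto

/-- The composed instance. -/
noncomputable def compose (V : ℕ) (Φ : List (List (Clause3 ℕ))) : Instance :=
  (matrix V (allClauses V) Φ, rows V (allClauses V), (allClauses V).length + 4)

theorem yes_compose (hT : 5 ≤ Φ.length) (hV : ∀ φ ∈ Φ, ∀ v ∈ vars3 φ, v < V) :
    Yes (compose V Φ) ↔ ∃ φ ∈ Φ, Sat3 φ := by
  constructor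
  · intro h
    refine imp_sat (Z := allClauses V) hT (fun φ hφ c hc => ?_) (HasFairFVS.of_iso iso.symm h)
    have : ∀ l ∈ lits c, l.1 < V := by
      intro l hl
      refine hV φ hφ _ (List.mem_flatMap.2 ⟨c, hc, ?_⟩)
      simp only [lits, List.mem_cons, List.not_mem_nil, or_false] at hl
      rcases hl with rfl | rfl | rfl <;> simp
    exact ⟨mem_allClauses this, this⟩
  · intro h
    exact HasFairFVS.of_iso iso (sat_imp hT h)

section pt

variable {α : Type} [Enc α]

@[fun_prop] theorem pt_lits {c : α → Clause3 ℕ} (hc : PT c) : PT (fun x => lits (c x)) := by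
  unfold lits; fun_prop

@[fun_prop] theorem pt_cap {c : α → Clause3 ℕ} (hc : PT c) : PT (fun x => cap (c x)) := by
  unfold cap; fun_prop

@[fun_prop] theorem pp_cross {V a b : α → ℕ} {Z : α → List (Clause3 ℕ)}
    {Φ : α → List (List (Clause3 ℕ))} {c : α → Clause3 ℕ} (h1 : PT V) (h2 : PT Z) (h3 : PT Φ)
    (h4 : PT c) (h5 : PT a) (h6 : PT b) :
    PP (fun x => cross (V x) (Z x) (Φ x) (c x) (a x) (b x)) := by
  unfold cross; fun_prop

@[fun_prop] theorem pp_rel {V a b a' b' : α → ℕ} {Z : α → List (Clause3 ℕ)}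
    {Φ : α → List (List (Clause3 ℕ))} (h1 : PT V) (h2 : PT Z) (h3 : PT Φ)
    (h4 : PT a) (h5 : PT b) (h6 : PT a') (h7 : PT b') :
    PP (fun x => rel (V x) (Z x) (Φ x) (a x) (b x) (a' x) (b' x)) := by
  unfold rel; fun_prop

@[fun_prop] theorem pt_adjB {V u v : α → ℕ} {Z : α → List (Clause3 ℕ)}
    {Φ : α → List (List (Clause3 ℕ))} (h1 : PT V) (h2 : PT Z) (h3 : PT Φ)
    (h4 : PT u) (h5 : PT v) : PT (fun x => adjB (V x) (Z x) (Φ x) (u x) (v x)) := by
  unfold adjB; fun_prop

@[fun_prop] theorem pt_rows {V : α → ℕ} {Z : α → List (Clause3 ℕ)} (h1 : PT V) (h2 : PT Z) :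
    PT (fun x => rows (V x) (Z x)) := by
  unfold rows; fun_prop

@[fun_prop] theorem pb_rows {V : α → ℕ} {Z : α → List (Clause3 ℕ)} (h1 : PB V) (h2 : PT Z) :
    PB (fun x => rows (V x) (Z x)) := by
  unfold rows; fun_prop

theorem pt_matrix {V : α → ℕ} {Z : α → List (Clause3 ℕ)} {Φ : α → List (List (Clause3 ℕ))}
    (h1 : PT V) (h1' : PB V) (h2 : PT Z) (h3 : PT Φ) :
    PT (fun x => matrix (V x) (Z x) (Φ x)) := by
  have h4 : PT (fun x => List.range (rows (V x) (Z x) * (Φ x).length)) := by fun_prop
  unfold matrix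
  refine PT.map ?_ h4
  refine PT.map ?_ (h4.comp' (f := fun p : α × ℕ => p.1) (by fun_prop))
  fun_prop

theorem pt_compose {V : α → ℕ} {Φ : α → List (List (Clause3 ℕ))}
    (h1 : PT V) (h1' : PB V) (h3 : PT Φ) : PT (fun x => compose (V x) (Φ x)) := by
  have h2 : PT (fun x => allClauses (V x)) := by
    unfold allClauses allLits
    fun_prop
  have h4 := pt_matrix h1 h1' h2 h3
  unfold compose
  fun_prop

end pt

theorem main (h : HasPolyKernel) : NP ⊆ coNPpoly := by
  obtain ⟨p, κ, hκ, hk⟩ := h
  have hκ' := PT.of_isPolyTime hκ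
  intro L hL
  obtain ⟨f, hf, hf'⟩ := hardOn_sat3 L hL
  obtain ⟨r, hr⟩ : PB (fun x => (f x).length) := by fun_prop
  let W : ℕ → ℕ := fun n => 3 * r.eval (3 * n)
  have hc : PT (fun xs : List (List Bool) => compose (W (xs.headD []).length) (xs.map f)) := by
    apply pt_compose <;> (try simp only [W]) <;> fun_prop
  let w : Polynomial ℕ := 3 * r.comp (3 * Polynomial.X)
  refine fortnow_santhanam L (fun y => ∃ I : Instance, enc I = y ∧ Yes I)
    (fun xs => enc (κ (compose (W (xs.headD []).length) (xs.map f)))) (hκ'.comp' hc).enc'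
    (p.comp (1 + w + 8 * w ^ 3 + (8 * w ^ 3 + 4))) 4 fun n xs h1 h2 => ?_
  have hn : (xs.headD []).length = n := by
    cases xs with
    | nil => simp at h2
    | cons a l => exact h1 a (by simp)
  rw [hn]
  obtain ⟨-, k2, k3⟩ := hk (compose (W n) (xs.map f)) (valid_matrix _)
  constructor
  · refine k3.trans (le_of_eq ?_)
    simp [compose, rows, length_allClauses, w, W]
  · have e : (∃ I : Instance, enc I = enc (κ (compose (W n) (xs.map f))) ∧ Yes I) ↔
        Yes (κ (compose (W n) (xs.map f))) :=
      ⟨fun ⟨I, a, b⟩ => (enc_injective a : I = _) ▸ b, fun b => ⟨_, rfl, b⟩⟩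
    rw [e, k2, yes_compose (by simp; omega)]
    · simp only [List.mem_map, exists_exists_and_eq_and, (hf' _).2]
    · intro φ hφ v hv
      obtain ⟨x, hx, rfl⟩ := List.mem_map.1 hφ
      have a := (hf' x).1 v hv
      have b : (f x).length ≤ r.eval (size x) := hr x
      rw [size_listBool, h1 x hx] at b
      simp only [W]
      omega

end Pool.Agent.MP_a87d5d_lc
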